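import Pool.Agent.J4H50.YZ.Stm2
import Pool.Agent.J4H46.MS.Univ
import Pool.Agent.J4H50.YM.Cv2
import Pool.Agent.J4H19.YO.Rn

set_option autoImplicit false
set_option linter.unusedSectionVars false
set_option linter.unusedVariables false

/-! # Project YZ: (Z7) reduced plane curves -/

namespace Pool.Agent.J4H17.YZ

open Pool.Agent.N103 Pool.Agent.W574.SM Pool.Agent.W574.MO Pool.Agent.J4H46.MS Pool.Agent.J4H46.MT
open Pool.Agent.J4H50.TF Pool.Agent.J4H50.YO Pool.Agent.J4H50.YZ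
open Pool.Agent.J4H46.MQ (map_qq map_geo map_den)

open scoped Polynomial PowerSeries
open PowerSeries (C coeff X)

section Red

variable {R R' : Type}

/-- the polynomial on the exceptional curve is not zero -/
theorem pol_ne {h : MP} {m : ℕ} (a1 : ℕ) {hc : ℂ → MP}
    (hhc : ∀ c, MvPolynomial.aeval (chart c) h = MvPolynomial.X 0 ^ m * hc c)
    (S : Finset ℂ) (hS : ∀ c ∉ S, MvPolynomial.constantCoeff (hc c) ≠ 0) :
    (Polynomial.X ^ a1 * res0 (hc 0) : ℂ[X]) ≠ 0 := by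
  obtain ⟨z, hz⟩ := Infinite.exists_notMem_finset S
  have hhz : res0 (hc z) = (res0 (hc 0)).comp (Polynomial.X + Polynomial.C z) :=
    res0_chart h (hc 0) (hc z) m z (hhc 0) (hhc z)
  have h1 : (res0 (hc 0)).eval z = MvPolynomial.constantCoeff (hc z) := by
    rw [← coeff_res0, hhz, Polynomial.coeff_zero_eq_eval_zero, Polynomial.eval_comp]
    simp
  have h2 : res0 (hc 0) ≠ 0 := by
    intro h0
    apply hS z hz
    rw [← h1, h0, Polynomial.eval_zero]
  exact mul_ne_zero (pow_ne_zero _ Polynomial.X_ne_zero) h2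

/-- change of the contributions -/
theorem redw_map [AddCommMonoid R] [AddCommMonoid R'] (φ : R →+ R')
    {lf : ℕ → ℕ → ℕ → ℕ → R} {ed : ℕ → ℕ → ℂ[X] → Finset ℂ → R}
    {lf' : ℕ → ℕ → ℕ → ℕ → R'} {ed' : ℕ → ℕ → ℂ[X] → Finset ℂ → R'}
    (h1 : ∀ x n y m, (x ≠ 0 ∨ y ≠ 0) → φ (lf x n y m) = lf' x n y m)
    (h2 : ∀ N ν P S, 1 ≤ N → P ≠ 0 → φ (ed N ν P S) = ed' N ν P S)
    {h : MP} {a0 n0 a1 n1 : ℕ} {Z : R}
    (hZ : RedW lf ed h a0 n0 a1 n1 Z) : RedW lf' ed' h a0 n0 a1 n1 (φ Z) := by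
  classical
  induction hZ with
  | unit h a0 n0 a1 n1 hh hI =>
    rw [h1 _ _ _ _ hI]
    exact RedW.unit h a0 n0 a1 n1 hh hI
  | curveV h a0 n0 h0 h3 =>
    rw [h1 _ _ _ _ (Or.inr one_ne_zero)]
    exact RedW.curveV h a0 n0 h0 h3
  | curveU h a1 n1 h0 h3 =>
    rw [h1 _ _ _ _ (Or.inr one_ne_zero)]
    exact RedW.curveU h a1 n1 h0 h3
  | blowup h a0 n0 a1 n1 m hm hc hI hhc hhI S h0S hS Zc ZI hz0 hcS hZI ih0 ihc ihI =>
    rw [map_add, map_add, map_sum, h2 _ _ _ _ (by omega) (pol_ne a1 hhc S hS)]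
    exact RedW.blowup h a0 n0 a1 n1 m hm hc hI hhc hhI S h0S hS
      (fun c => φ (Zc c)) (φ ZI) ih0 ihc ihI

theorem redw_zero [AddCommMonoid R]
    {lf : ℕ → ℕ → ℕ → ℕ → R} {ed : ℕ → ℕ → ℂ[X] → Finset ℂ → R}
    (h1 : ∀ x n y m, lf x n y m = 0) (h2 : ∀ N ν P S, ed N ν P S = 0)
    {h : MP} {a0 n0 a1 n1 : ℕ} {Z : R}
    (hZ : RedW lf ed h a0 n0 a1 n1 Z) : Z = 0 := by
  classical
  induction hZ with
  | unit h a0 n0 a1 n1 hh hI => exact h1 _ _ _ _
  | curveV h a0 n0 h0 h3 => exact h1 _ _ _ _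
  | curveU h a1 n1 h0 h3 => exact h1 _ _ _ _
  | blowup h a0 n0 a1 n1 m hm hc hI hhc hhI S h0S hS Zc ZI hz0 hcS hZI ih0 ihc ihI =>
    rw [h2, ihI, Finset.sum_eq_zero, add_zero, add_zero]
    intro c hc'
    by_cases h : c = 0
    · rw [h]
      exact ih0
    · exact ihc c hc' h

/-- a relation between contributions -/
theorem redw_rel [AddCommMonoid R] [AddCommMonoid R'] (φ : R →+ R')
    {lf : ℕ → ℕ → ℕ → ℕ → R} {ed : ℕ → ℕ → ℂ[X] → Finset ℂ → R}
    (h1 : ∀ x n y m, (x ≠ 0 ∨ y ≠ 0) → φ (lf x n y m) = 0)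
    (h2 : ∀ N ν P S, 1 ≤ N → P ≠ 0 → φ (ed N ν P S) = 0)
    {h : MP} {a0 n0 a1 n1 : ℕ} {Z : R}
    (hZ : RedW lf ed h a0 n0 a1 n1 Z) : φ Z = 0 :=
  redw_zero (fun _ _ _ _ => rfl) (fun _ _ _ _ => rfl)
    (redw_map φ (lf' := fun _ _ _ _ => 0) (ed' := fun _ _ _ _ => 0) h1 h2 hZ)

/-- two kinds of contributions at the same time -/
theorem redw_lift [AddCommMonoid R] [AddCommMonoid R']
    {lf : ℕ → ℕ → ℕ → ℕ → R} {ed : ℕ → ℕ → ℂ[X] → Finset ℂ → R}
    (lf' : ℕ → ℕ → ℕ → ℕ → R') (ed' : ℕ → ℕ → ℂ[X] → Finset ℂ → R')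
    {h : MP} {a0 n0 a1 n1 : ℕ} {Z : R}
    (hZ : RedW lf ed h a0 n0 a1 n1 Z) :
    ∃ Z' : R', RedW (fun x n y m => (lf x n y m, lf' x n y m))
      (fun N ν P S => (ed N ν P S, ed' N ν P S)) h a0 n0 a1 n1 (Z, Z') := by
  classical
  induction hZ with
  | unit h a0 n0 a1 n1 hh hI =>
    exact ⟨_, RedW.unit h a0 n0 a1 n1 hh hI⟩
  | curveV h a0 n0 h0 h3 =>
    exact ⟨_, RedW.curveV h a0 n0 h0 h3⟩
  | curveU h a1 n1 h0 h3 =>
    exact ⟨_, RedW.curveU h a1 n1 h0 h3⟩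
  | blowup h a0 n0 a1 n1 m hm hc hI hhc hhI S h0S hS Zc ZI hz0 hcS hZI ih0 ihc ihI =>
    obtain ⟨Y0, hY0⟩ := ih0
    obtain ⟨YI, hYI⟩ := ihI
    have hch : ∀ c : ℂ, ∃ Y : R', (c ∈ S → c ≠ 0 →
        RedW (fun x n y m => (lf x n y m, lf' x n y m))
          (fun N ν P S => (ed N ν P S, ed' N ν P S)) (hc c)
          (a0 + a1 + m) (n0 + n1) 0 1 (Zc c, Y)) := by
      intro c
      by_cases hcS : c ∈ S ∧ c ≠ 0
      · obtain ⟨Y, hY⟩ := ihc c hcS.1 hcS.2
        exact ⟨Y, fun _ _ => hY⟩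
      · exact ⟨0, fun h1 h2 => absurd ⟨h1, h2⟩ hcS⟩
    choose Y hY using hch
    let Yc : ℂ → R' := fun c => if c = 0 then Y0 else Y c
    have h5 := RedW.blowup (lf := fun x n y m => (lf x n y m, lf' x n y m))
      (ed := fun N ν P S => (ed N ν P S, ed' N ν P S)) h a0 n0 a1 n1 m hm hc hI
      hhc hhI S h0S hS (fun c => (Zc c, Yc c)) (ZI, YI)
      (by simp only [Yc, if_pos]; exact hY0)
      (fun c hcS h => by simp only [Yc, if_neg h]; exact hY c hcS h) hYI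
    refine ⟨YI + ∑ c ∈ S, Yc c +
      ed' (a0 + a1 + m) (n0 + n1) (Polynomial.X ^ a1 * res0 (hc 0)) S, ?_⟩
    convert h5 using 1
    ext
    · simp [Prod.fst_sum]
    · simp [Prod.snd_sum]

/-- the contributions lie in a subring -/
theorem redw_all [CommRing R] {D : Subring R}
    {lf : ℕ → ℕ → ℕ → ℕ → R} {ed : ℕ → ℕ → ℂ[X] → Finset ℂ → R}
    (h1 : ∀ x n y m, 1 ≤ n → 1 ≤ m → lf x n y m ∈ D)
    (h2 : ∀ N ν P S, 1 ≤ ν → ed N ν P S ∈ D)
    {h : MP} {a0 n0 a1 n1 : ℕ} {Z : R}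
    (hZ : RedW lf ed h a0 n0 a1 n1 Z) (hn0 : 1 ≤ n0) (hn1 : 1 ≤ n1) : Z ∈ D := by
  classical
  induction hZ with
  | unit h a0 n0 a1 n1 hh hI => exact h1 _ _ _ _ hn0 hn1
  | curveV h a0 n0 h0 h3 => exact h1 _ _ _ _ hn0 le_rfl
  | curveU h a1 n1 h0 h3 => exact h1 _ _ _ _ hn1 le_rfl
  | blowup h a0 n0 a1 n1 m hm hc hI hhc hhI S h0S hS Zc ZI hz0 hcS hZI ih0 ihc ihI =>
    refine D.add_mem (D.add_mem (ihI hn0 (by omega)) ?_) (h2 _ _ _ _ (by omega))
    refine D.sum_mem fun c hcS => ?_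
    by_cases h : c = 0
    · rw [h]
      exact ih0 (by omega) hn1
    · exact ihc c hcS h (by omega) le_rfl

end Red

section Maps

variable {R M : Type} [CommRing R] [CommRing M] (ψ : R →+* M) {LR : Rˣ} {L : Mˣ}

theorem map_lfR (hL : ψ (LR : R) = L) (e : ℕ → R) (x n y m : ℕ) :
    PowerSeries.map ψ (lfR LR e x n y m) = lfR L (fun g => ψ (e g)) x n y m := by
  simp only [lfR, map_mul, map_pow, map_sub, map_one, PowerSeries.map_C, map_qf ψ hL, hL]

theorem map_edR (hL : ψ (LR : R) = L) (e : ℕ → R) (c : ℕ → ℂ[X] → R) (N ν : ℕ) (P : ℂ[X])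
    (S : Finset ℂ) : PowerSeries.map ψ (edR LR e c N ν P S) =
      edR L (fun g => ψ (e g)) (fun n P => ψ (c n P)) N ν P S := by
  simp only [edR, map_mul, map_sub, map_sum, PowerSeries.map_C, map_qf ψ hL]

end Maps

section Reg

variable {A : Type} [CommRing A] [IsDomain A] {L : Aˣ}

/-- the contribution of a point, with arbitrary weights: all the denominators -/
theorem allR (e : ℕ → A) (cW : ℕ → ℂ[X] → A) {F : MP} {a0 n0 a1 n1 : ℕ}
    {Z : A⟦X⟧} (hZ : RedW (lfR L e) (edR L e cW) F a0 n0 a1 n1 Z) (hn0 : 1 ≤ n0)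
    (hn1 : 1 ≤ n1) : Z ∈ DenRing L (fun _ _ => True) :=
  redw_all (fun x n y m hn hm => Subring.mul_mem _ (C_mem _)
      (Subring.mul_mem _ (qf_all x hn) (qf_all y hm)))
    (fun N ν P S hν => Subring.mul_mem _ (C_mem _) (qf_all N hν)) hZ hn0 hn1

/-- the contribution of a point is regular at `s` -/
theorem regR (hZ6 : S_Z6) (hL1 : (L : A) - 1 ≠ 0) {F : MP} (hF : F ≠ 0) {s : ℂ}
    (hE : Evp (FF F (fun _ : Option Empty => (1 : MP)) 1) s) (e : ℕ → A) (cW : ℕ → ℂ[X] → A)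
    (hc2 : ∀ (n : ℕ) (P : ℂ[X]), 1 ≤ n → P ≠ 0 → (spec n P).card ≤ 2 →
      cW n P = ((L : A) + 1) * e (gmul n P)) (he1 : e 1 = 0)
    {Z : A⟦X⟧} (hZ : RedW (lfR L e) (edR L e cW) F 0 1 0 1 Z) : Z ∈ DenRing L (Kn s) := by
  refine mem_of_C_mul hL1 ?_
  have h1 := redw_map (AddMonoidHom.mulLeft (C ((L : A) - 1)))
    (lf' := fun x n y m => C (e (Nat.gcd x y)) * (mf L x n * mf L y m))
    (ed' := fun N ν P S => (C (cW N P) - ∑ z ∈ S, C (e (Nat.gcd N (P.rootMultiplicity z)))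
      - C (e (Nat.gcd N P.natDegree))) * mf L N ν) ?_ ?_ hZ
  · refine hZ6 hF (Φ := mf L) (l := C (L : A)) (e := fun g => C (e g))
      (cW := fun n P => C (cW n P)) hE (zdata_mot L s) (Or.inr (by rw [he1, map_zero]))
      (fun _ => C_mem _) (fun _ _ => C_mem _) ?_ h1
    intro n P hn hP hsp
    rw [hc2 n P hn hP hsp, map_mul, map_add, map_one]
  · intro x n y m hxy
    have h2 := kap_lfM L (a := 1) le_rfl (x := x) (y := y) (t := false)
      (by rcases hxy with h | h; exacts [Or.inl h, Or.inr (Or.inl h)]) n m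
    have h3 : typeFactor (mf L) 1 false = 1 := rfl
    have h4 : typeFactor (qf L) 1 false = 1 := rfl
    rw [lfM, h3, h4] at h2
    rw [AddMonoidHom.coe_mulLeft, lfR, map_mul]
    linear_combination (C (e (x.gcd y))) * h2
  · intro N ν P S hN hP
    have h2 := mf_qf L N ν (by omega)
    have e1 : (C (cW N P - ∑ z ∈ S, e (N.gcd (P.rootMultiplicity z))
        - e (N.gcd P.natDegree)) : A⟦X⟧) = C (cW N P)
        - ∑ z ∈ S, C (e (N.gcd (P.rootMultiplicity z))) - C (e (N.gcd P.natDegree)) := by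
      rw [map_sub, map_sub, map_sum]
    rw [AddMonoidHom.coe_mulLeft, edR, e1, h2]
    ring

end Reg

section Main

variable {M E : Type} [CommRing M] [CommRing E] [Algebra M E] {L : Mˣ}

/-- the monodromic system -/
noncomputable def mon (S : CSys M E L) : MonSys M E L where
  pc := S.pc
  cl := S.cl
  tot := S.tot
  nz := fun d => S.nz.flip (S.pc d)
  zr := fun d => S.zr.flip (S.pc d)
  pw := S.pw
  pc_one := S.pc_one
  tot_pc := S.tot_pc
  tot_cl := S.tot_cl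
  cl_two := S.cl_two
  nz_one := fun d hd => by
    rw [LinearMap.flip_apply, S.nz_comm, S.nz_one, S.tot_pc d hd]
  zr_one := fun d hd => by
    rw [LinearMap.flip_apply, S.zr_comm, S.zr_one, S.tot_pc d hd]
  tot_nz := fun d x hd => by
    rw [LinearMap.flip_apply, LinearMap.flip_apply, S.tot_nz, S.tot_pc d hd, mul_comm]
  tot_pw := S.tot_pw

variable (S : CSys M E L)

theorem c_up (g : ℕ) : psi (mon S) (up g) = S.pc g := psi_up (mon S) g

theorem c_uc (n : ℕ) (P : ℂ[X]) : psi (mon S) (uc n P) = S.cl n P := psi_uc (mon S) n P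

theorem c_UL : psi (mon S) (UL : UR) = (LE L : Eˣ) := psi_UL (mon S)

theorem c_one : S.tot 1 = (L : M) - 1 := by
  rw [← S.pc_one]
  exact S.tot_pc 1 le_rfl

theorem tot_mul_alg (x : E) (y : M) : S.tot (x * algebraMap M E y) = y * S.tot x := by
  rw [mul_comm, ← Algebra.smul_def, map_smul, smul_eq_mul]

/-- `(L - 1) ^ k` comes from `M` -/
theorem LE_pow (k : ℕ) : (((LE L : Eˣ) : E) - 1) ^ k = algebraMap M E (((L : M) - 1) ^ k) := by
  rw [LE_one, map_pow, map_sub, map_one]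

end Main

/-- (Z7) reduced plane curves -/
theorem t_Z7 : S_Z6 → S_Z8 → S_Z7 := by
  intro hZ6 hZ8 M E _ _ _ L S F hF h00 Z hZ
  obtain ⟨ρ0, h1⟩ := redw_lift (lfR LL (fun _ => 1))
    (edR LL (fun _ => 1) (fun _ _ => ((LL : AAˣ) : AA) + 1)) hZ
  obtain ⟨Y0, h2⟩ := redw_lift (lfR UL (fun g => up g - 1))
    (edR UL (fun g => up g - 1) (fun n P => uc n P - ((UL : UR) + 1))) h1
  have hρ : RedW (lfR LL (fun _ => 1)) (edR LL (fun _ => 1) (fun _ _ => ((LL : AAˣ) : AA) + 1))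
      F 0 1 0 1 ρ0 :=
    redw_map ((AddMonoidHom.snd _ _).comp (AddMonoidHom.fst _ _)) (fun _ _ _ _ _ => rfl)
      (fun _ _ _ _ _ _ => rfl) h2
  have hY : RedW (lfR UL (fun g => up g - 1))
      (edR UL (fun g => up g - 1) (fun n P => uc n P - ((UL : UR) + 1))) F 0 1 0 1 Y0 :=
    redw_map (AddMonoidHom.snd _ _) (fun _ _ _ _ _ => rfl) (fun _ _ _ _ _ _ => rfl) h2
  have hψ := c_UL S
  have hφ : phi L ((LL : AAˣ) : AA) = L := phi_LL L
  have hι : algebraMap M E (L : M) = (LE L : Eˣ) := rfl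
  have hF0 : MvPowerSeries.constantCoeff (F : MvPowerSeries (Fin 2) ℂ) = 0 := by
    rw [← MvPowerSeries.coeff_zero_eq_constantCoeff_apply, MvPolynomial.coeff_coe,
      ← MvPolynomial.constantCoeff_eq, h00]
  -- the relation
  have hrel : Z = PowerSeries.map (psi (mon S)) Y0
      + PowerSeries.map (algebraMap M E) (PowerSeries.map (phi L) ρ0) := by
    have h3 := redw_rel (R' := E⟦X⟧) ((AddMonoidHom.fst _ _).comp (AddMonoidHom.fst _ _)
      - (((PowerSeries.map (algebraMap M E)).comp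
        (PowerSeries.map (phi L))).toAddMonoidHom.comp
          ((AddMonoidHom.snd _ _).comp (AddMonoidHom.fst _ _)))
      - ((PowerSeries.map (psi (mon S))).toAddMonoidHom.comp (AddMonoidHom.snd _ _))) ?_ ?_ h2
    · have h4 : Z - PowerSeries.map (algebraMap M E) (PowerSeries.map (phi L) ρ0)
          - PowerSeries.map (psi (mon S)) Y0 = 0 := h3
      linear_combination h4
    · intro x n y m _
      show lfR (LE L) S.pc x n y m - PowerSeries.map (algebraMap M E)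
        (PowerSeries.map (phi L) (lfR LL (fun _ => 1) x n y m))
        - PowerSeries.map (psi (mon S)) (lfR UL (fun g => up g - 1) x n y m) = 0
      rw [map_lfR _ hφ, map_lfR _ hι, map_lfR _ hψ, lfR, lfR, lfR]
      simp only [map_mul, map_sub, map_one, c_up]
      ring
    · intro N ν P S' _ _
      show edR (LE L) S.pc S.cl N ν P S' - PowerSeries.map (algebraMap M E)
        (PowerSeries.map (phi L) (edR LL (fun _ => 1) (fun _ _ => ((LL : AAˣ) : AA) + 1)
          N ν P S'))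
        - PowerSeries.map (psi (mon S)) (edR UL (fun g => up g - 1)
          (fun n P => uc n P - ((UL : UR) + 1)) N ν P S') = 0
      rw [map_edR _ hφ, map_edR _ hι, map_edR _ hψ, edR, edR, edR, ← sub_mul, ← sub_mul,
        ← map_sub, ← map_sub]
      have e1 : S.cl N P - ∑ z ∈ S', S.pc (N.gcd (Polynomial.rootMultiplicity z P))
          - S.pc (N.gcd P.natDegree)
          - (algebraMap M E (phi L (((LL : AAˣ) : AA) + 1))
            - ∑ z ∈ S', algebraMap M E (phi L 1) - algebraMap M E (phi L 1))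
          - (psi (mon S) (uc N P - ((UL : UR) + 1))
            - ∑ z ∈ S', psi (mon S) (up (N.gcd (Polynomial.rootMultiplicity z P)) - 1)
            - psi (mon S) (up (N.gcd P.natDegree) - 1)) = 0 := by
        simp only [map_sub, map_add, map_one, c_up, c_uc, c_UL, hφ, hι,
          Finset.sum_sub_distrib]
        ring
      rw [e1, map_zero, zero_mul]
  -- the total space
  have htot : cm S.tot (PowerSeries.map (psi (mon S)) Y0) = 0 := by
    refine redw_rel (R' := M⟦X⟧) ((cmH S.tot).comp (PowerSeries.map (psi (mon S))).toAddMonoidHom)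
      ?_ ?_ hY
    · intro x n y m hxy
      show cm S.tot (PowerSeries.map (psi (mon S)) (lfR UL (fun g => up g - 1) x n y m)) = 0
      have hg : 1 ≤ Nat.gcd x y := by
        rcases hxy with h | h
        · exact Nat.gcd_pos_of_pos_left _ (Nat.pos_of_ne_zero h)
        · exact Nat.gcd_pos_of_pos_right _ (Nat.pos_of_ne_zero h)
      rw [map_lfR _ hψ, lfR, ← map_qf _ hι, ← map_qf _ hι, ← map_mul, cm_C_mul, LE_pow,
        tot_mul_alg, map_sub, map_one, c_up, map_sub, c_one, S.tot_pc _ hg, sub_self, mul_zero,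
        map_zero, zero_mul]
    · intro N ν P S' hN hP
      show cm S.tot (PowerSeries.map (psi (mon S)) (edR UL (fun g => up g - 1)
          (fun n P => uc n P - ((UL : UR) + 1)) N ν P S')) = 0
      have hg : ∀ x, 1 ≤ Nat.gcd N x := fun x => Nat.gcd_pos_of_pos_left _ hN
      rw [map_edR _ hψ, edR, ← map_qf _ hι, cm_C_mul]
      have e1 : S.tot (psi (mon S) (uc N P - ((UL : UR) + 1))
            - ∑ z ∈ S', psi (mon S) (up (N.gcd (Polynomial.rootMultiplicity z P)) - 1)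
            - psi (mon S) (up (N.gcd P.natDegree) - 1)) = 0 := by
        simp only [map_sub, map_add, map_one, map_sum, c_up, c_uc, c_UL,
          Finset.sum_sub_distrib, c_one]
        rw [S.tot_cl _ _ hN hP, S.tot_pc _ (hg _), Finset.sum_congr rfl fun z _ => S.tot_pc _ (hg _)]
        have e2 : S.tot ((LE L : Eˣ) : E) = (L : M) * ((L : M) - 1) := by
          rw [LE_one, Algebra.algebraMap_eq_smul_one, map_smul, c_one, smul_eq_mul]
        rw [e2]
        simp only [Finset.sum_sub_distrib]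
        ring
      rw [e1, map_zero, zero_mul]
  have ht : cm S.tot Z = C ((L : M) - 1) * PowerSeries.map (phi L) ρ0 := by
    rw [hrel, cm_add, htot, zero_add, cm_map, c_one]
    congr 1
  obtain ⟨hr1, hr2⟩ := hZ8 hF h00 hρ
  refine ⟨_, _, hrel, ?_, ?_, ?_⟩
  · refine map_den _ hψ (descK UL_ne (allR _ _ hY le_rfl le_rfl) fun a n _ _ hK => ?_)
    have hNV : ¬ NV (F : MvPowerSeries (Fin 2) ℂ) (-(n : ℂ) / a) :=
      fun h => hK ⟨h, NV_sing _ _ hF0 h⟩
    refine regR hZ6 UL_sub_one hF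
      (Pool.Agent.J4H50.YM.evp_curve Pool.Agent.J4H19.YO.t_RN hNV) _ _ ?_ ?_ hY
    · intro n P hn hP hsp
      rw [uc, if_pos ⟨hn, hP, hsp⟩]
      ring
    · rw [up, if_pos rfl, sub_self]
  · have h5 := map_den _ hφ hr1
    rwa [map_mul, map_sub, map_one, map_qq _ hφ] at h5
  · have h5 := map_den _ hφ hr2
    rwa [map_sub, map_gtr, map_mul, PowerSeries.map_C, map_sub, map_one, hφ, ← ht] at h5

end Pool.Agent.J4H17.YZ
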